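import Mathlib

set_option autoImplicit false

namespace Pool.Agent.H.MP_903b9e_co

def Btw {k : ℕ} (a b c : Fin k → ℤ) : Prop :=
  ∀ i, (a i ≤ b i ∧ b i ≤ c i) ∨ (c i ≤ b i ∧ b i ≤ a i)

def Good {k : ℕ} {ι : Type} (x : ι → Fin k → ℤ) : Prop :=
  (∀ i r s, x r i = x s i → r = s) ∧ ∀ r s t, r ≠ s → r ≠ t → s ≠ t → ¬ Btw (x r) (x s) (x t)

lemma lex {M a a' b b' : ℤ} (h1 : |b| ≤ M) (h2 : |b'| ≤ M)
    (h : (2 * M + 1) * a + b ≤ (2 * M + 1) * a' + b') : a ≤ a' := by
  by_contra hc
  have h3 : a' + 1 ≤ a := by omega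
  have := abs_le.mp h1
  have := abs_le.mp h2
  have hM : 0 ≤ M := (abs_nonneg b).trans h1
  nlinarith

theorem constr (k : ℕ) : ∃ (ι : Type) (_ : Fintype ι) (x : ι → Fin (k + 1) → ℤ),
    Fintype.card ι = 2 ^ 2 ^ k ∧ Good x := by
  induction k with
  | zero =>
    refine ⟨Bool, inferInstance, fun r _ => if r then 1 else 0, by simp, ?_, ?_⟩
    · intro i r s; cases r <;> cases s <;> simp
    · intro r s t; cases r <;> cases s <;> cases t <;> simp
  | succ k ih =>
    obtain ⟨ι, _, x, hc, h1, h2⟩ := ih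
    obtain ⟨M, hM⟩ : ∃ M : ℤ, ∀ r i, |x r i| ≤ M := by
      obtain ⟨M, hM⟩ := (Set.finite_range (fun p : ι × Fin (k + 1) => |x p.1 p.2|)).bddAbove
      exact ⟨M, fun r i => hM ⟨(r, i), rfl⟩⟩
    have hM' : ∀ r i, |-x r i| ≤ M := fun r i => by rw [abs_neg]; exact hM r i
    refine ⟨ι × ι, inferInstance, fun p => Fin.cons ((2 * M + 1) * x p.1 0 + - x p.2 0)
      (fun i => (2 * M + 1) * x p.1 i + x p.2 i), ?_, ?_, ?_⟩
    · rw [Fintype.card_prod, hc, ← pow_add, pow_succ 2 k, mul_two]
    · intro i r s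
      refine Fin.cases ?_ (fun j => ?_) i
      · simp only [Fin.cons_zero]
        intro h
        have e := h1 0 _ _ (le_antisymm (lex (hM' _ _) (hM' _ _) h.le) (lex (hM' _ _) (hM' _ _) h.ge))
        rw [e] at h
        exact Prod.ext e (h1 0 _ _ (by linarith))
      · simp only [Fin.cons_succ]
        intro h
        have e := h1 j _ _ (le_antisymm (lex (hM _ _) (hM _ _) h.le) (lex (hM _ _) (hM _ _) h.ge))
        rw [e] at h
        exact Prod.ext e (h1 j _ _ (by linarith))
    · rintro ⟨a, b⟩ ⟨a', b'⟩ ⟨a'', b''⟩ n1 n2 n3 hb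
      have hb0 := hb 0
      have hbs := fun j : Fin (k + 1) => hb j.succ
      simp only [Fin.cons_zero, Fin.cons_succ] at hb0 hbs
      have hA : Btw (x a) (x a') (x a'') := fun j => by
        rcases hbs j with h | h
        · exact Or.inl ⟨lex (hM _ _) (hM _ _) h.1, lex (hM _ _) (hM _ _) h.2⟩
        · exact Or.inr ⟨lex (hM _ _) (hM _ _) h.1, lex (hM _ _) (hM _ _) h.2⟩
      by_cases e1 : a = a''
      · subst e1
        have e2 : a' = a := h1 0 _ _ (by rcases hA 0 with h | h <;> omega)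
        subst e2
        refine h2 b b' b'' (fun h => n1 (by rw [h])) (fun h => n2 (by rw [h]))
          (fun h => n3 (by rw [h])) (fun j => ?_)
        rcases hbs j with h | h
        · left; constructor <;> linarith [h.1, h.2]
        · right; constructor <;> linarith [h.1, h.2]
      have e0 : x a 0 ≠ x a'' 0 := fun h => e1 (h1 0 _ _ h)
      by_cases e2 : a' = a
      · subst e2
        apply n1
        congr 1
        apply h1 0
        rcases hb0 with h | h <;> rcases hbs 0 with h' | h'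
        · linarith [h.1, h'.1]
        · exact absurd (le_antisymm (lex (hM' _ _) (hM' _ _) h.2) (lex (hM _ _) (hM _ _) h'.1)) e0
        · exact absurd (le_antisymm (lex (hM _ _) (hM _ _) h'.2) (lex (hM' _ _) (hM' _ _) h.1)) e0
        · linarith [h.2, h'.2]
      by_cases e3 : a' = a''
      · subst e3
        apply n3
        congr 1
        apply h1 0
        rcases hb0 with h | h <;> rcases hbs 0 with h' | h'
        · linarith [h.2, h'.2]
        · exact absurd (le_antisymm (lex (hM' _ _) (hM' _ _) h.1) (lex (hM _ _) (hM _ _) h'.2)) e0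
        · exact absurd (le_antisymm (lex (hM _ _) (hM _ _) h'.1) (lex (hM' _ _) (hM' _ _) h.2)) e0
        · linarith [h.1, h'.1]
      exact h2 a a' a'' (Ne.symm e2) e1 e3 hA

theorem upper (k : ℕ) (S : Set (Fin (k + 1) → ℤ))
    (h : ∀ a ∈ S, ∀ b ∈ S, ∀ c ∈ S, a ≠ b → a ≠ c → b ≠ c → ¬ Btw a b c) :
    S.encard ≤ (2 ^ 2 ^ k : ℕ) := by
  classical
  let lt : (Fin (k + 1) → ℤ) → (Fin (k + 1) → ℤ) → Prop := fun a b => toLex a < toLex b
  have hlt0 : ∀ a b, lt a b → a 0 ≤ b 0 := by
    rintro a b ⟨i, h1, h2⟩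
    rcases Fin.eq_zero_or_eq_succ i with rfl | ⟨j, rfl⟩
    · exact le_of_lt h2
    · exact le_of_eq (h1 0 (Fin.succ_pos j))
  let s : (Fin (k + 1) → ℤ) → (Fin (k + 1) → ℤ) → Fin k → Bool :=
    fun a b j => decide (a j.succ ≤ b j.succ)
  let D : (Fin (k + 1) → ℤ) → Set (Fin k → Bool) := fun b => {v | ∃ a ∈ S, lt a b ∧ s a b = v}
  have key : ∀ a ∈ S, ∀ b ∈ S, lt a b → D a ≠ D b := by
    intro a ha b hb hab e
    have : s a b ∈ D a := by rw [e]; exact ⟨a, ha, hab, rfl⟩
    obtain ⟨z, hz, hza, hs⟩ := this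
    refine h z hz a ha b hb (fun e => by rw [e] at hza; exact lt_irrefl _ hza)
      (fun e => by rw [e] at hza; exact lt_asymm hza hab)
      (fun e => by rw [e] at hab; exact lt_irrefl _ hab) (fun i => ?_)
    refine Fin.cases (Or.inl ⟨hlt0 _ _ hza, hlt0 _ _ hab⟩) (fun j => ?_) i
    have := congrFun hs j
    simp only [s, decide_eq_decide] at this
    omega
  have hinj : Set.InjOn D S := by
    intro a ha b hb e
    rcases lt_trichotomy (toLex a) (toLex b) with h1 | h1 | h1
    · exact absurd e (key a ha b hb h1)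
    · exact toLex.injective h1
    · exact absurd e.symm (key b hb a ha h1)
  rw [← hinj.encard_image]
  refine (Set.encard_le_card).trans ?_
  simp

theorem seq {α : Type*} (r : α → α → Prop) (T : ℕ → α)
    (h : ∀ n, Relation.ReflTransGen r (T n) (T (n + 1))) :
    ∃ f : ℕ → α, f 0 = T 0 ∧ (∀ n, r (f n) (f (n + 1)) ∨ f (n + 1) = f n) ∧ ∀ n, ∃ m, f m = T n := by
  have h1 : ∀ n, ∃ l : List α, List.IsChain r (T n :: l) ∧
      (T n :: l).getLast (List.cons_ne_nil _ _) = T (n + 1) :=
    fun n => List.exists_isChain_cons_of_relationReflTransGen (h n)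
  choose L hL1 hL2 using h1
  let step : ℕ × α × List α → ℕ × α × List α := fun p =>
    match p with
    | (n, a, []) => (n + 1, a, L (n + 1))
    | (n, _, b :: l) => (n, b, l)
  let Inv : ℕ × α × List α → Prop := fun p => List.IsChain r (p.2.1 :: p.2.2) ∧
    (p.2.1 :: p.2.2).getLast (List.cons_ne_nil _ _) = T (p.1 + 1)
  have hstep : ∀ p, Inv p → Inv (step p) ∧ (r p.2.1 (step p).2.1 ∨ (step p).2.1 = p.2.1) := by
    rintro ⟨n, a, l⟩ ⟨e1, e2⟩
    cases l with
    | nil =>
      simp only [List.getLast_singleton] at e2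
      subst e2
      exact ⟨⟨hL1 _, hL2 _⟩, Or.inr rfl⟩
    | cons b l =>
      rw [List.isChain_cons_cons] at e1
      exact ⟨⟨e1.2, e2⟩, Or.inl e1.1⟩
  have hinv : ∀ m, Inv (step^[m] (0, T 0, L 0)) := by
    intro m
    induction m with
    | zero => exact ⟨hL1 0, hL2 0⟩
    | succ m ih => rw [Function.iterate_succ_apply']; exact (hstep _ ih).1
  have hrun : ∀ (l : List α) n a, (a :: l).getLast (List.cons_ne_nil _ _) = T (n + 1) →
      step^[l.length + 1] (n, a, l) = (n + 1, T (n + 1), L (n + 1)) := by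
    intro l
    induction l with
    | nil => intro n a e; simp only [List.getLast_singleton] at e; subst e; rfl
    | cons b l ih =>
      intro n a e
      rw [List.length_cons, Function.iterate_succ_apply]
      exact ih n b e
  have hreach : ∀ n, ∃ m, step^[m] (0, T 0, L 0) = (n, T n, L n) := by
    intro n
    induction n with
    | zero => exact ⟨0, rfl⟩
    | succ n ih =>
      obtain ⟨m, hm⟩ := ih
      exact ⟨(L n).length + 1 + m, by rw [Function.iterate_add_apply, hm, hrun _ _ _ (hL2 n)]⟩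
  refine ⟨fun m => (step^[m] (0, T 0, L 0)).2.1, rfl, fun m => ?_, fun n => ?_⟩
  · simp only [Function.iterate_succ_apply']
    exact (hstep _ (hinv m)).2
  · obtain ⟨m, hm⟩ := hreach n
    exact ⟨m, by simp only [hm]⟩

end Pool.Agent.H.MP_903b9e_co
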